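import Pool.Agent.Y298.LC.Stm
import Pool.Agent.H712R2.LogLift

/-!
# `S_RAY`: systems of rays over a parameter disc

The rays are constructed by pulling back: on `(s / d, ∞) × ball` the ray `z t` is the continuous
`d`-th root of `z (d t) (d σ) c - c` which agrees with the ray `z t` on `(s, ∞) × ball`.
-/

set_option autoImplicit false

open Set Filter Metric MeasureTheory Topology Complex Bornology

namespace Pool.Agent.Y153.LC

open Pool.Agent.H712R2 (P fc exists_log_homotopy)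
open Pool.Agent.H713R2 (IsExteriorMap)
open Pool.Agent.H713R2.AR (green)
open N62a1eb23 (multibrotSet)
open Pool.Agent.Y298.LC

/-! ### Roots -/

/-- continuous roots on a convex set -/
lemma exists_root {W : Set (ℝ × ℂ)} (hW : Convex ℝ W) {a : ℝ × ℂ} (ha : a ∈ W) {T : ℝ × ℂ → ℂ}
    (hT : ContinuousOn T W) (hne : ∀ p ∈ W, T p ≠ 0) {d : ℕ} (hd : d ≠ 0) :
    ∃ u : ℝ × ℂ → ℂ, ContinuousOn u W ∧ ∀ p ∈ W, u p ^ d = T p := by
  classical
  have hmem : ∀ q : unitInterval × W, a + (q.1 : ℝ) • ((q.2 : ℝ × ℂ) - a) ∈ W := by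
    rintro ⟨s, p, hp⟩
    exact hW.add_smul_sub_mem ha hp s.2
  have hcont : Continuous (fun q : unitInterval × W =>
      T (a + (q.1 : ℝ) • ((q.2 : ℝ × ℂ) - a)) / T a) := by
    have h1 : Continuous (fun q : unitInterval × W => a + (q.1 : ℝ) • ((q.2 : ℝ × ℂ) - a)) := by
      fun_prop
    exact (hT.comp_continuous h1 hmem).div_const _
  let H : C(unitInterval × W, {z : ℂ // z ≠ 0}) :=
    ⟨fun q => ⟨T (a + (q.1 : ℝ) • ((q.2 : ℝ × ℂ) - a)) / T a,
      div_ne_zero (hne _ (hmem q)) (hne a ha)⟩, hcont.subtype_mk _⟩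
  have H0 : ∀ p, (H (0, p) : ℂ) = 1 := by
    intro p
    change T (a + ((0 : unitInterval) : ℝ) • ((p : ℝ × ℂ) - a)) / T a = 1
    rw [Set.Icc.coe_zero, zero_smul, add_zero, div_self (hne a ha)]
  obtain ⟨L, hL, -⟩ := exists_log_homotopy H H0
  refine ⟨fun p => if hp : p ∈ W then
    Complex.exp ((L (1, ⟨p, hp⟩) + Complex.log (T a)) / d) else 0, ?_, ?_⟩
  · rw [continuousOn_iff_continuous_domRestrict]
    have : (W.domRestrict fun p => if hp : p ∈ W then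
        Complex.exp ((L (1, ⟨p, hp⟩) + Complex.log (T a)) / d) else 0) =
        fun p : W => Complex.exp ((L (1, p) + Complex.log (T a)) / d) := by
      funext p
      simp [Set.domRestrict]
    rw [this]
    fun_prop
  · intro p hp
    simp only [hp, dif_pos]
    rw [← Complex.exp_nat_mul, mul_div_cancel₀ _ (Nat.cast_ne_zero.2 hd), Complex.exp_add, hL,
      Complex.exp_log (hne a ha)]
    change T (a + ((1 : unitInterval) : ℝ) • (p - a)) / T a * T a = T p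
    rw [Set.Icc.coe_one, one_smul, add_sub_cancel, div_mul_cancel₀ _ (hne a ha)]

/-- two continuous roots on a preconnected set which agree at a point agree -/
lemma root_unique {X : Type*} [TopologicalSpace X] {W : Set X} (hW : IsPreconnected W)
    {u v : X → ℂ} (hu : ContinuousOn u W) (hv : ContinuousOn v W) {d : ℕ} (hd : d ≠ 0)
    (huv : ∀ p ∈ W, u p ^ d = v p ^ d) (hv0 : ∀ p ∈ W, v p ≠ 0) {a : X} (ha : a ∈ W)
    (haa : u a = v a) : ∀ p ∈ W, u p = v p := by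
  have hT : {w : ℂ | w ^ d = 1}.Finite := by
    refine (Polynomial.nthRoots d (1 : ℂ)).toFinset.finite_toSet.subset fun w hw => ?_
    rw [Finset.mem_coe, Multiset.mem_toFinset, Polynomial.mem_nthRoots (Nat.pos_of_ne_zero hd)]
    exact hw
  have hfin : Finite {w : ℂ | w ^ d = 1} := hT
  have hdisc : IsDiscrete {w : ℂ | w ^ d = 1} := isDiscrete_iff_discreteTopology.2 inferInstance
  have hq : ContinuousOn (fun p => u p / v p) W := hu.div hv hv0
  have hm : MapsTo (fun p => u p / v p) W {w : ℂ | w ^ d = 1} := fun p hp => by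
    change (u p / v p) ^ d = 1
    rw [div_pow, huv p hp, div_self (pow_ne_zero d (hv0 p hp))]
  intro p hp
  have h1 : u p / v p = u a / v a := hW.constant_of_mapsTo hdisc hq hm hp ha
  rw [haa, div_self (hv0 a ha), div_eq_one_iff_eq (hv0 p hp)] at h1
  exact h1

/-- a continuous root of a holomorphic function without zeros is holomorphic -/
lemma root_diff {g h : ℂ → ℂ} {d : ℕ} (hd : d ≠ 0) {s : Set ℂ} (hs : IsOpen s)
    (hg : ContinuousOn g s) (hh : DifferentiableOn ℂ h s) (hgh : ∀ c ∈ s, g c ^ d = h c)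
    (hg0 : ∀ c ∈ s, g c ≠ 0) : DifferentiableOn ℂ g s := by
  intro c1 hc1
  refine DifferentiableAt.differentiableWithinAt ?_
  have hn : s ∈ 𝓝 c1 := hs.mem_nhds hc1
  have hgc : ContinuousAt g c1 := hg.continuousAt hn
  have hd1 : HasDerivAt h (deriv h c1) c1 := (hh.differentiableAt hn).hasDerivAt
  set S : ℂ → ℂ := fun c => ∑ i ∈ Finset.range d, g c ^ i * g c1 ^ (d - 1 - i) with hS
  have hSc' : ContinuousAt S c1 := by
    rw [hS]
    exact tendsto_finsetSum _ fun i _ => (hgc.pow i).mul_const _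
  have hSc : Tendsto S (𝓝[≠] c1) (𝓝 (S c1)) := hSc'.tendsto.mono_left nhdsWithin_le_nhds
  have hS0 : S c1 ≠ 0 := by
    have hS1 : S c1 = d * g c1 ^ (d - 1) := geom_sum₂_self _ _
    rw [hS1]
    exact mul_ne_zero (Nat.cast_ne_zero.2 hd) (pow_ne_zero _ (hg0 c1 hc1))
  have key : HasDerivAt g (deriv h c1 / S c1) c1 := by
    rw [hasDerivAt_iff_tendsto_slope] at hd1 ⊢
    refine (hd1.div hSc hS0).congr' ?_
    have h3 : ∀ᶠ c in 𝓝[≠] c1, S c ≠ 0 := hSc.eventually_ne hS0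
    filter_upwards [h3, self_mem_nhdsWithin, mem_nhdsWithin_of_mem_nhds hn] with c hc hcne hcs
    have h4 : S c * (g c - g c1) = h c - h c1 := by
      rw [← hgh c hcs, ← hgh c1 hc1]
      exact geom_sum₂_mul _ _ _
    change slope h c1 c / S c = slope g c1 c
    rw [slope_def_field, slope_def_field, ← h4]
    have h5 : c - c1 ≠ 0 := sub_ne_zero.2 hcne
    field_simp
  exact key.differentiableAt

/-! ### The points `ex σ t` -/

lemma norm_ex (σ t : ℝ) : ‖ex σ t‖ = Real.exp σ := by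
  unfold ex
  rw [Complex.norm_exp]
  congr 1
  simp

lemma log_ex (σ t : ℝ) : Real.log ‖ex σ t‖ = σ := by
  rw [norm_ex, Real.log_exp]

lemma ex_pow (d : ℕ) (σ t : ℝ) : ex σ t ^ d = ex (d * σ) (d * t) := by
  unfold ex
  rw [← Complex.exp_nat_mul]
  congr 1
  push_cast
  ring

lemma ex_int (σ t : ℝ) (n : ℤ) : ex σ (t + n) = ex σ t := by
  unfold ex
  have e : ((σ : ℂ) + 2 * Real.pi * ((t + n : ℝ) : ℂ) * I) =
      (σ : ℂ) + 2 * Real.pi * t * I + n * (2 * Real.pi * I) := by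
    push_cast
    ring
  rw [e, Complex.exp_add, Complex.exp_int_mul_two_pi_mul_I, mul_one]

lemma ex_mul (σ s t : ℝ) : ex σ (t + s) = ex 0 s * ex σ t := by
  unfold ex
  rw [← Complex.exp_add]
  congr 1
  push_cast
  ring

lemma mem_Dom {g σ t : ℝ} (h : g < σ) : ex σ t ∈ Dom g := by
  change g < Real.log ‖ex σ t‖
  rwa [log_ex]

lemma cont_ex (t : ℝ) : Continuous (fun σ : ℝ => ex σ t) := by
  unfold ex
  fun_prop

/-! ### Partial systems -/

/-- the data -/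
structure Ctx (d : ℕ) (Ψ : ℂ → ℂ → ℂ) (ψ : ℂ → ℂ) (c₀ : ℂ) (r : ℝ) (A : Set ℝ) (σ₁ : ℝ) :
    Prop where
  cg : ∀ c z, green d c (fc d c z) = d * green d c z
  mem : ∀ c, c ∈ multibrotSet d ↔ green d c 0 = 0
  bot2 : ∀ w : ℂ, 1 < ‖w‖ → green d (ψ w) 0 = Real.log ‖w‖ / d ∧ Ψ (ψ w) w = ψ w
  hd : 2 ≤ d
  hB : Bott d Ψ
  hψ : IsExteriorMap (multibrotSet d) ψ
  hr : 0 < r
  hA : ∀ t ∈ A, (d : ℝ) * t ∈ A
  hout : ∀ t ∈ A, ∀ σ, 0 < σ → ψ (ex σ t) ∉ ball c₀ r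
  pos : 0 < σ₁
  hσ : ∀ c ∈ ball c₀ r, green d c 0 < σ₁

/-- a system of rays for the potentials larger than `s` -/
structure Sys (d : ℕ) (Ψ : ℂ → ℂ → ℂ) (c₀ : ℂ) (r : ℝ) (A : Set ℝ) (s : ℝ)
    (z : ℝ → ℝ → ℂ → ℂ) : Prop where
  cont : ∀ t ∈ A, ContinuousOn (fun p : ℝ × ℂ => z t p.1 p.2) (Ioi s ×ˢ ball c₀ r)
  conj : ∀ t ∈ A, ∀ σ, s < σ → ∀ c ∈ ball c₀ r, fc d c (z t σ c) = z (d * t) (d * σ) c
  high : ∀ t ∈ A, ∀ σ, s < σ → ∀ c ∈ ball c₀ r, green d c 0 < σ → z t σ c = Ψ c (ex σ t)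

section sys

variable {d : ℕ} {Ψ : ℂ → ℂ → ℂ} {ψ : ℂ → ℂ} {c₀ : ℂ} {r : ℝ} {A : Set ℝ} {σ₁ : ℝ}
  {s : ℝ} {z z' : ℝ → ℝ → ℂ → ℂ}

lemma Ctx.d1 (H : Ctx d Ψ ψ c₀ r A σ₁) : (2 : ℝ) ≤ d := by exact_mod_cast H.hd

lemma Ctx.d0 (H : Ctx d Ψ ψ c₀ r A σ₁) : d ≠ 0 := by
  have := H.hd
  omega

lemma Ctx.lt (H : Ctx d Ψ ψ c₀ r A σ₁) {s σ : ℝ} (hs : 0 ≤ s) (h : s < σ) : s < d * σ := by
  have h1 := H.d1
  nlinarith

lemma Ctx.big (H : Ctx d Ψ ψ c₀ r A σ₁) {σ : ℝ} (h : 0 < σ) (x : ℝ) :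
    ∃ n : ℕ, x < (d : ℝ) ^ n * σ := by
  have h1 := H.d1
  obtain ⟨n, hn⟩ := pow_unbounded_of_one_lt (x / σ) (by linarith : (1 : ℝ) < d)
  exact ⟨n, by rwa [div_lt_iff₀ h] at hn⟩

lemma fc_zero (hd : d ≠ 0) (c : ℂ) : fc d c 0 = c := by
  unfold fc
  rw [zero_pow hd, zero_add]

lemma Sys.mono (h : Sys d Ψ c₀ r A s z) {s' : ℝ} (hs : s ≤ s') : Sys d Ψ c₀ r A s' z where
  cont t ht := (h.cont t ht).mono (prod_mono (Ioi_subset_Ioi hs) subset_rfl)
  conj t ht σ hσ := h.conj t ht σ (hs.trans_lt hσ)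
  high t ht σ hσ := h.high t ht σ (hs.trans_lt hσ)

lemma Sys.pot_aux (H : Ctx d Ψ ψ c₀ r A σ₁) (h : Sys d Ψ c₀ r A s z) (hs : 0 ≤ s) (n : ℕ) :
    ∀ t ∈ A, ∀ σ, s < σ → ∀ c ∈ ball c₀ r, green d c 0 < (d : ℝ) ^ n * σ →
      green d c (z t σ c) = σ := by
  induction n with
  | zero =>
    intro t ht σ hσ c hc hg
    rw [pow_zero, one_mul] at hg
    rw [h.high t ht σ hσ c hc hg, H.hB.pot c _ (mem_Dom hg), log_ex]
  | succ n ih =>
    intro t ht σ hσ c hc hg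
    have h1 := ih (d * t) (H.hA t ht) (d * σ) (H.lt hs hσ) c hc
      (by rwa [← mul_assoc, ← pow_succ])
    rw [← h.conj t ht σ hσ c hc, H.cg] at h1
    have h2 : (d : ℝ) ≠ 0 := Nat.cast_ne_zero.2 H.d0
    exact mul_left_cancel₀ h2 h1

lemma Sys.pot (H : Ctx d Ψ ψ c₀ r A σ₁) (h : Sys d Ψ c₀ r A s z) (hs : 0 ≤ s) {t : ℝ}
    (ht : t ∈ A) {σ : ℝ} (hσ : s < σ) {c : ℂ} (hc : c ∈ ball c₀ r) :
    green d c (z t σ c) = σ := by
  obtain ⟨n, hn⟩ := H.big (hs.trans_lt hσ) (green d c 0)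
  exact h.pot_aux H hs n t ht σ hσ c hc hn

lemma Sys.ne_c (H : Ctx d Ψ ψ c₀ r A σ₁) (h : Sys d Ψ c₀ r A s z) (hs : 0 ≤ s) {t : ℝ}
    (ht : t ∈ A) {σ : ℝ} (hσ : s < σ) {c : ℂ} (hc : c ∈ ball c₀ r) : z t σ c ≠ c := by
  intro he
  have hσ0 : 0 < σ := hs.trans_lt hσ
  have hd1 := H.d1
  have h1 := h.pot H hs ht hσ hc
  rw [he] at h1
  have h2 := H.cg c 0
  rw [fc_zero H.d0, h1] at h2
  have h3 : green d c 0 < σ := by nlinarith
  have h4 : green d c 0 ≠ 0 := by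
    intro h0
    rw [h0, mul_zero] at h2
    exact hσ0.ne' h2
  have h5 := h.high t ht σ hσ c hc h3
  rw [he] at h5
  have h6 : c ∈ (multibrotSet d)ᶜ := fun h7 => h4 ((H.mem c).1 h7)
  rw [← H.hψ.image] at h6
  obtain ⟨w, hw, rfl⟩ := h6
  obtain ⟨h7, h8⟩ := H.bot2 w hw
  have h9 : Real.log ‖w‖ = σ := by
    rw [h7, mul_div_cancel₀ _ (Nat.cast_ne_zero.2 H.d0)] at h2
    exact h2.symm
  have h10 : w = ex σ t := by
    refine H.hB.inj (ψ w) ?_ (mem_Dom h3) (by rw [h8, ← h5])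
    change green d (ψ w) 0 < Real.log ‖w‖
    rw [h9]
    exact h3
  exact H.hout t ht σ hσ0 (h10 ▸ hc)

lemma Sys.ne_zero (H : Ctx d Ψ ψ c₀ r A σ₁) (h : Sys d Ψ c₀ r A s z) (hs : 0 ≤ s) {t : ℝ}
    (ht : t ∈ A) {σ : ℝ} (hσ : s < σ) {c : ℂ} (hc : c ∈ ball c₀ r) : z t σ c ≠ 0 := by
  intro h0
  have h1 := h.conj t ht σ hσ c hc
  rw [h0, fc_zero H.d0] at h1
  exact h.ne_c H hs (H.hA t ht) (H.lt hs hσ) hc h1.symm

lemma conv (s : ℝ) (c₀ : ℂ) (r : ℝ) : Convex ℝ (Ioi s ×ˢ ball c₀ r : Set (ℝ × ℂ)) :=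
  (convex_Ioi s).prod (convex_ball c₀ r)

/-- two systems agree -/
lemma Sys.unique_aux (H : Ctx d Ψ ψ c₀ r A σ₁) (h : Sys d Ψ c₀ r A s z)
    (h' : Sys d Ψ c₀ r A s z') (hs : 0 ≤ s) (n : ℕ) :
    ∀ t ∈ A, ∀ t' ∈ A, (∃ m : ℤ, t' = t + m) → ∀ σ, s < σ → σ₁ < (d : ℝ) ^ n * σ →
      ∀ c ∈ ball c₀ r, z t σ c = z' t' σ c := by
  induction n with
  | zero =>
    intro t ht t' ht' hm σ hσ hσ1 c hc
    rw [pow_zero, one_mul] at hσ1
    obtain ⟨m, rfl⟩ := hm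
    have h1 := (H.hσ c hc).trans hσ1
    rw [h.high t ht σ hσ c hc h1, h'.high _ ht' σ hσ c hc h1, ex_int]
  | succ n ih =>
    intro t ht t' ht' hm σ hσ hσ1 c hc
    have hd0 : (0 : ℝ) < (d : ℝ) ^ (n + 1) := pow_pos (by linarith [H.d1]) _
    set s' := max s (σ₁ / (d : ℝ) ^ (n + 1)) with hs'
    have hss : s ≤ s' := le_max_left _ _
    have hroot : ∀ p ∈ (Ioi s' ×ˢ ball c₀ r : Set (ℝ × ℂ)), z t p.1 p.2 = z' t' p.1 p.2 := by
      refine root_unique (conv s' c₀ r).isPreconnected (u := fun p : ℝ × ℂ => z t p.1 p.2)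
        (v := fun p : ℝ × ℂ => z' t' p.1 p.2) ((h.mono hss).cont t ht) ((h'.mono hss).cont t' ht')
        H.d0 ?_ ?_ (a := (s' + σ₁ + 1, c)) ?_ ?_
      · rintro ⟨x, y⟩ ⟨hx, hy⟩
        have hx' : s' < x := hx
        have hxs : s < x := hss.trans_lt hx'
        have h1 : σ₁ < (d : ℝ) ^ n * (d * x) := by
          have h2 : σ₁ / (d : ℝ) ^ (n + 1) < x := (le_max_right _ _).trans_lt hx'
          rw [div_lt_iff₀ hd0, mul_comm, pow_succ, mul_assoc] at h2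
          exact h2
        obtain ⟨m, hm⟩ := hm
        have h3 := ih (d * t) (H.hA t ht) (d * t') (H.hA t' ht') ⟨d * m, by
          rw [hm]
          push_cast
          ring⟩ (d * x) (H.lt hs hxs) h1 y hy
        rw [← h.conj t ht x hxs y hy, ← h'.conj t' ht' x hxs y hy] at h3
        unfold fc at h3
        exact add_right_cancel h3
      · rintro ⟨x, y⟩ ⟨hx, hy⟩
        exact h'.ne_zero H hs ht' (hss.trans_lt hx) hy
      · refine ⟨?_, hc⟩
        change s' < s' + σ₁ + 1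
        linarith [H.pos]
      · have h1 : 0 ≤ s' := hs.trans hss
        have h2 : s < s' + σ₁ + 1 := by linarith [H.pos]
        obtain ⟨m, rfl⟩ := hm
        have h3 := (H.hσ c hc).trans (by linarith : σ₁ < s' + σ₁ + 1)
        change z t (s' + σ₁ + 1) c = z' (t + m) (s' + σ₁ + 1) c
        rw [h.high t ht _ h2 c hc h3, h'.high _ ht' _ h2 c hc h3, ex_int]
    refine hroot (σ, c) ⟨?_, hc⟩
    change s' < σ
    refine max_lt hσ ?_
    rw [div_lt_iff₀ hd0, mul_comm]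
    exact hσ1

lemma Sys.unique (H : Ctx d Ψ ψ c₀ r A σ₁) (h : Sys d Ψ c₀ r A s z)
    (h' : Sys d Ψ c₀ r A s z') (hs : 0 ≤ s) {t t' : ℝ} (ht : t ∈ A) (ht' : t' ∈ A)
    (hm : ∃ m : ℤ, t' = t + m) {σ : ℝ} (hσ : s < σ) {c : ℂ} (hc : c ∈ ball c₀ r) :
    z t σ c = z' t' σ c := by
  obtain ⟨n, hn⟩ := H.big (hs.trans_lt hσ) σ₁
  exact h.unique_aux H h' hs n t ht t' ht' hm σ hσ hn c hc

/-- holomorphy -/
lemma Sys.diff_aux (H : Ctx d Ψ ψ c₀ r A σ₁) (h : Sys d Ψ c₀ r A s z) (hs : 0 ≤ s) (n : ℕ) :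
    ∀ t ∈ A, ∀ σ, s < σ → σ₁ < (d : ℝ) ^ n * σ → DifferentiableOn ℂ (z t σ) (ball c₀ r) := by
  induction n with
  | zero =>
    intro t ht σ hσ hσ1
    rw [pow_zero, one_mul] at hσ1
    have h1 : DifferentiableOn ℂ (fun c => Ψ c (ex σ t)) (ball c₀ r) := by
      refine (H.hB.diffc (ex σ t)).mono fun c hc => ?_
      change green d c 0 < Real.log ‖ex σ t‖
      rw [log_ex]
      exact (H.hσ c hc).trans hσ1
    exact h1.congr fun c hc => h.high t ht σ hσ c hc ((H.hσ c hc).trans hσ1)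
  | succ n ih =>
    intro t ht σ hσ hσ1
    have h1 := ih (d * t) (H.hA t ht) (d * σ) (H.lt hs hσ) (by rwa [← mul_assoc, ← pow_succ])
    have h2 : ContinuousOn (z t σ) (ball c₀ r) := by
      have h3 : ContinuousOn (fun c : ℂ => ((σ, c) : ℝ × ℂ)) (ball c₀ r) := by fun_prop
      exact (h.cont t ht).comp h3 fun c hc => ⟨hσ, hc⟩
    refine root_diff H.d0 isOpen_ball h2 (h := fun c => z (d * t) (d * σ) c - c)
      (h1.sub differentiableOn_id) (fun c hc => ?_) fun c hc => h.ne_zero H hs ht hσ hc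
    have h4 := h.conj t ht σ hσ c hc
    unfold fc at h4
    exact eq_sub_of_add_eq h4

/-- the pull back -/
lemma Sys.step (H : Ctx d Ψ ψ c₀ r A σ₁) (h : Sys d Ψ c₀ r A s z) (hs : 0 ≤ s) :
    ∃ z', Sys d Ψ c₀ r A (s / d) z' := by
  classical
  have hd1 := H.d1
  have hd0 : (0 : ℝ) < d := by linarith
  have hsd : s / d ≤ s := div_le_self hs (by linarith)
  have hlt : ∀ {σ : ℝ}, s / d < σ → s < d * σ := fun hσ => by
    rw [div_lt_iff₀ hd0, mul_comm] at hσ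
    exact hσ
  have hex : ∀ t : ℝ, ∃ u : ℝ × ℂ → ℂ, t ∈ A →
      ContinuousOn u (Ioi (s / d) ×ˢ ball c₀ r) ∧
      (∀ p ∈ (Ioi (s / d) ×ˢ ball c₀ r : Set (ℝ × ℂ)),
        u p ^ d = z (d * t) (d * p.1) p.2 - p.2) ∧
      ∀ p ∈ (Ioi s ×ˢ ball c₀ r : Set (ℝ × ℂ)), u p = z t p.1 p.2 := by
    intro t
    by_cases ht : t ∈ A
    · have hT : ContinuousOn (fun p : ℝ × ℂ => z (d * t) (d * p.1) p.2 - p.2)
          (Ioi (s / d) ×ˢ ball c₀ r) := by
        refine ContinuousOn.sub ?_ continuousOn_snd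
        have h3 : ContinuousOn (fun p : ℝ × ℂ => ((d * p.1, p.2) : ℝ × ℂ))
            (Ioi (s / d) ×ˢ ball c₀ r) := by fun_prop
        exact (h.cont (d * t) (H.hA t ht)).comp h3 fun p hp => ⟨hlt hp.1, hp.2⟩
      have hne : ∀ p ∈ (Ioi (s / d) ×ˢ ball c₀ r : Set (ℝ × ℂ)),
          z (d * t) (d * p.1) p.2 - p.2 ≠ 0 := fun p hp =>
        sub_ne_zero.2 (h.ne_c H hs (H.hA t ht) (hlt hp.1) hp.2)
      set a : ℝ × ℂ := (s + 1, c₀) with ha
      have ha1 : a ∈ (Ioi s ×ˢ ball c₀ r : Set (ℝ × ℂ)) :=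
        ⟨by change s < s + 1; linarith, mem_ball_self H.hr⟩
      have ha2 : a ∈ (Ioi (s / d) ×ˢ ball c₀ r : Set (ℝ × ℂ)) :=
        prod_mono (Ioi_subset_Ioi hsd) subset_rfl ha1
      obtain ⟨u, hu1, hu2⟩ := exists_root (conv (s / d) c₀ r) ha2 hT hne H.d0
      have hza : z t a.1 a.2 ^ d = u a ^ d := by
        rw [hu2 a ha2]
        have h4 := h.conj t ht a.1 ha1.1 a.2 ha1.2
        unfold fc at h4
        exact eq_sub_of_add_eq h4
      have hua : u a ≠ 0 := by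
        intro h0
        have h5 := hu2 a ha2
        rw [h0, zero_pow H.d0] at h5
        exact hne a ha2 h5.symm
      have hω : (z t a.1 a.2 / u a) ^ d = 1 := by
        rw [div_pow, hza, div_self (pow_ne_zero d hua)]
      refine ⟨fun p => z t a.1 a.2 / u a * u p, fun _ => ⟨continuousOn_const.mul hu1, ?_, ?_⟩⟩
      · intro p hp
        rw [mul_pow, hω, one_mul, hu2 p hp]
      · refine root_unique (conv s c₀ r).isPreconnected (u := fun p => z t a.1 a.2 / u a * u p)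
          (v := fun p : ℝ × ℂ => z t p.1 p.2) ?_ (h.cont t ht) H.d0 ?_ ?_ ha1 ?_
        · exact continuousOn_const.mul (hu1.mono (prod_mono (Ioi_subset_Ioi hsd) subset_rfl))
        · intro p hp
          have hp2 : p ∈ (Ioi (s / d) ×ˢ ball c₀ r : Set (ℝ × ℂ)) :=
            prod_mono (Ioi_subset_Ioi hsd) subset_rfl hp
          have h4 := h.conj t ht p.1 hp.1 p.2 hp.2
          unfold fc at h4
          change (z t a.1 a.2 / u a * u p) ^ d = z t p.1 p.2 ^ d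
          rw [mul_pow, hω, one_mul, hu2 p hp2]
          exact (eq_sub_of_add_eq h4).symm
        · intro p hp
          exact h.ne_zero H hs ht hp.1 hp.2
        · exact div_mul_cancel₀ _ hua
    · exact ⟨0, fun h' => absurd h' ht⟩
  choose u hu using hex
  have hconj : ∀ t ∈ A, ∀ σ, s / d < σ → ∀ c ∈ ball c₀ r,
      fc d c (u t (σ, c)) = z (d * t) (d * σ) c := by
    intro t ht σ hσ c hc
    have h1 := (hu t ht).2.1 (σ, c) ⟨hσ, hc⟩
    unfold fc
    rw [h1]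
    ring
  refine ⟨fun t σ c => u t (σ, c), ?_, ?_, ?_⟩
  · intro t ht
    exact (hu t ht).1
  · intro t ht σ hσ c hc
    rw [hconj t ht σ hσ c hc]
    exact ((hu (d * t) (H.hA t ht)).2.2 (d * σ, c) ⟨hlt hσ, hc⟩).symm
  · intro t ht σ hσ c hc hg
    set g := max (green d c 0) (s / d) with hgd
    have hg1 : green d c 0 ≤ g := le_max_left _ _
    have hg2 : s / d ≤ g := le_max_right _ _
    have hg0 : 0 ≤ g := (div_nonneg hs hd0.le).trans hg2
    have hroot : ∀ x ∈ Ioi g, u t (x, c) = Ψ c (ex x t) := by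
      have hf : ∀ x ∈ Ioi g, fc d c (Ψ c (ex x t)) = z (d * t) (d * x) c := by
        intro x hx
        have hx' : g < x := hx
        have hx0 : 0 < x := hg0.trans_lt hx'
        have h1 : green d c 0 < x := hg1.trans_lt hx'
        have h2 : green d c 0 < d * x := by nlinarith
        rw [h.high (d * t) (H.hA t ht) (d * x) (hlt (hg2.trans_lt hx')) c hc h2, ← ex_pow]
        exact (H.hB.conj c _ (mem_Dom h1)).symm
      refine root_unique isPreconnected_Ioi (u := fun x => u t (x, c))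
        (v := fun x => Ψ c (ex x t)) ?_ ?_ H.d0 ?_ ?_ (a := g + s + 1) ?_ ?_
      · have h3 : ContinuousOn (fun x : ℝ => ((x, c) : ℝ × ℂ)) (Ioi g) := by fun_prop
        exact (hu t ht).1.comp h3 fun x hx => ⟨hg2.trans_lt hx, hc⟩
      · exact (H.hB.diffw c).continuousOn.comp (cont_ex t).continuousOn fun x hx =>
          mem_Dom (hg1.trans_lt hx)
      · intro x hx
        have h4 := hf x hx
        rw [← hconj t ht x (hg2.trans_lt hx) c hc] at h4
        unfold fc at h4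
        exact (add_right_cancel h4).symm
      · intro x hx h0
        have h4 := hf x hx
        rw [h0, fc_zero H.d0] at h4
        exact h.ne_c H hs (H.hA t ht) (hlt (hg2.trans_lt hx)) hc h4.symm
      · change g < g + s + 1
        linarith
      · have h5 : s < g + s + 1 := by linarith
        have h6 : green d c 0 < g + s + 1 := by linarith
        change u t (g + s + 1, c) = Ψ c (ex (g + s + 1) t)
        rw [(hu t ht).2.2 (g + s + 1, c) ⟨h5, hc⟩]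
        exact h.high t ht _ h5 c hc h6
    exact hroot σ (max_lt hg hσ)

/-- the beginning -/
lemma Ctx.base (H : Ctx d Ψ ψ c₀ r A σ₁) : Sys d Ψ c₀ r A σ₁ (fun t σ c => Ψ c (ex σ t)) where
  cont t ht := by
    have h1 : ContinuousOn (fun p : ℝ × ℂ => ((p.2, ex p.1 t) : ℂ × ℂ))
        (Ioi σ₁ ×ˢ ball c₀ r) :=
      ContinuousOn.prodMk continuousOn_snd ((cont_ex t).comp continuous_fst).continuousOn
    refine H.hB.cont.comp h1 fun p hp => ?_
    change green d p.2 0 < Real.log ‖ex p.1 t‖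
    rw [log_ex]
    exact (H.hσ p.2 hp.2).trans hp.1
  conj t ht σ hσ c hc := by
    rw [← ex_pow]
    exact (H.hB.conj c _ (mem_Dom ((H.hσ c hc).trans hσ))).symm
  high t ht σ hσ c hc hg := rfl

lemma Ctx.all (H : Ctx d Ψ ψ c₀ r A σ₁) (k : ℕ) : ∃ z, Sys d Ψ c₀ r A (σ₁ / (d : ℝ) ^ k) z := by
  have hd1 := H.d1
  induction k with
  | zero =>
    refine ⟨fun t σ c => Ψ c (ex σ t), ?_⟩
    rw [pow_zero, div_one]
    exact H.base
  | succ k ih =>
    obtain ⟨z, hz⟩ := ih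
    obtain ⟨z', hz'⟩ := hz.step H (div_nonneg H.pos.le (pow_nonneg (by linarith) _))
    refine ⟨z', ?_⟩
    rwa [div_div, ← pow_succ] at hz'

end sys

theorem ray : S_CG → S_BOT2 → S_RAY := by
  intro hCG hBOT2 d Ψ ψ c₀ r A hd hB hψ hr hA hout
  classical
  obtain ⟨hgc, hcg, hmem, -⟩ := hCG d hd
  -- the bound of the potentials
  have hbd : ∃ σ₁ : ℝ, 0 < σ₁ ∧ ∀ c ∈ ball c₀ r, green d c 0 < σ₁ := by
    have h1 : ContinuousOn (fun c : ℂ => green d c 0) (closedBall c₀ r) :=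
      (hgc.comp (by fun_prop : Continuous (fun c : ℂ => ((c, 0) : ℂ × ℂ)))).continuousOn
    obtain ⟨M, hM⟩ := (isCompact_closedBall c₀ r).bddAbove_image h1
    refine ⟨|M| + 1, by positivity, fun c hc => ?_⟩
    have h2 := hM (mem_image_of_mem _ (ball_subset_closedBall hc))
    have h3 := le_abs_self M
    have h4 : green d c 0 ≤ M := h2
    linarith
  obtain ⟨σ₁, hσ0, hσ1⟩ := hbd
  have H : Ctx d Ψ ψ c₀ r A σ₁ := ⟨hcg, hmem, hBOT2 d Ψ ψ hd hB hψ, hd, hB, hψ, hr, hA, hout,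
    hσ0, hσ1⟩
  have hd1 := H.d1
  choose zk hzk using H.all
  have hK : ∀ σ : ℝ, ∃ k : ℕ, 0 < σ → σ₁ / (d : ℝ) ^ k < σ := by
    intro σ
    by_cases hσ : 0 < σ
    · obtain ⟨n, hn⟩ := H.big hσ σ₁
      refine ⟨n, fun _ => ?_⟩
      rw [div_lt_iff₀ (pow_pos (by linarith) _), mul_comm]
      exact hn
    · exact ⟨0, fun h => absurd h hσ⟩
  choose K hK using hK
  have hnn : ∀ k : ℕ, 0 ≤ σ₁ / (d : ℝ) ^ k := fun k =>
    div_nonneg hσ0.le (pow_nonneg (by linarith) _)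
  -- the systems agree
  have hag : ∀ (k : ℕ) (t t' σ : ℝ), t ∈ A → t' ∈ A → (∃ m : ℤ, t' = t + m) →
      σ₁ / (d : ℝ) ^ k < σ → ∀ c ∈ ball c₀ r, zk (K σ) t σ c = zk k t' σ c := by
    intro k t t' σ ht ht' hm hσ c hc
    have hσ0' : 0 < σ := (hnn k).trans_lt hσ
    set s := max (σ₁ / (d : ℝ) ^ k) (σ₁ / (d : ℝ) ^ (K σ)) with hs
    exact ((hzk (K σ)).mono (le_max_right _ _ : _ ≤ s)).unique H
      ((hzk k).mono (le_max_left _ _ : _ ≤ s)) ((hnn k).trans (le_max_left _ _)) ht ht' hm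
      (max_lt hσ (hK σ hσ0')) hc
  have hag0 : ∀ (k : ℕ) (t σ : ℝ), t ∈ A → σ₁ / (d : ℝ) ^ k < σ → ∀ c ∈ ball c₀ r,
      zk (K σ) t σ c = zk k t σ c := fun k t σ ht hσ c hc =>
    hag k t t σ ht ht ⟨0, by simp⟩ hσ c hc
  refine ⟨fun t σ c => zk (K σ) t σ c, ?_, ?_, ?_, ?_, ?_, ?_⟩
  · intro t ht σ hσ
    obtain ⟨n, hn⟩ := H.big hσ σ₁
    exact (hzk (K σ)).diff_aux H (hnn _) n t ht σ (hK σ hσ) hn
  · rintro t ht ⟨σ, c⟩ ⟨hσ, hc⟩
    have hσ' : 0 < σ := hσ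
    have hopen : IsOpen (Ioi (σ₁ / (d : ℝ) ^ (K σ)) ×ˢ ball c₀ r : Set (ℝ × ℂ)) :=
      isOpen_Ioi.prod isOpen_ball
    have hmem' : ((σ, c) : ℝ × ℂ) ∈ (Ioi (σ₁ / (d : ℝ) ^ (K σ)) ×ˢ ball c₀ r : Set (ℝ × ℂ)) :=
      ⟨hK σ hσ', hc⟩
    have h1 := ((hzk (K σ)).cont t ht).continuousAt (hopen.mem_nhds hmem')
    refine (h1.congr ?_).continuousWithinAt
    filter_upwards [hopen.mem_nhds hmem'] with p hp
    exact (hag0 (K σ) t p.1 ht hp.1 p.2 hp.2).symm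
  · intro t ht σ hσ c hc
    have h1 := (hzk (K σ)).conj t ht σ (hK σ hσ) c hc
    change fc d c (zk (K σ) t σ c) = zk (K (d * σ)) (d * t) (d * σ) c
    rw [h1, hag0 (K σ) (d * t) (d * σ) (hA t ht) (H.lt (hnn _) (hK σ hσ)) c hc]
  · intro t ht σ hσ c hc
    exact (hzk (K σ)).pot H (hnn _) ht (hK σ hσ) hc
  · intro t ht σ hσ c hc hg
    exact (hzk (K σ)).high t ht σ (hK σ hσ) c hc hg
  · intro t ht j ht' σ hσ c hc
    -- comparison of two roots on `(s, ∞) × ball`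
    set s := σ₁ / (d : ℝ) ^ (K σ) with hs
    have hz := hzk (K σ)
    have hd0 : (d : ℝ) ≠ 0 := Nat.cast_ne_zero.2 H.d0
    have hω : ex 0 (j / d) ^ d = 1 := by
      rw [ex_pow, mul_zero, mul_div_cancel₀ _ hd0]
      have h1 := ex_int 0 0 j
      rw [zero_add] at h1
      rw [h1]
      unfold ex
      simp
    have hroot : ∀ p ∈ (Ioi s ×ˢ ball c₀ r : Set (ℝ × ℂ)),
        zk (K σ) (t + j / d) p.1 p.2 = ex 0 (j / d) * zk (K σ) t p.1 p.2 := by
      refine root_unique (conv s c₀ r).isPreconnected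
        (u := fun p : ℝ × ℂ => zk (K σ) (t + j / d) p.1 p.2)
        (v := fun p : ℝ × ℂ => ex 0 (j / d) * zk (K σ) t p.1 p.2)
        (hz.cont _ ht') (continuousOn_const.mul (hz.cont t ht)) H.d0 ?_ ?_
        (a := (s + σ₁ + 1, c₀)) ?_ ?_
      · rintro ⟨x, y⟩ ⟨hx, hy⟩
        change zk (K σ) (t + j / d) x y ^ d = (ex 0 (j / d) * zk (K σ) t x y) ^ d
        rw [mul_pow, hω, one_mul]
        have h2 := hz.conj t ht x hx y hy
        have h3 := hz.conj _ ht' x hx y hy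
        have h4 : zk (K σ) (d * t) (d * x) y = zk (K σ) (d * (t + j / d)) (d * x) y :=
          hz.unique H hz (hnn _) (hA t ht) (hA _ ht') ⟨j, by field_simp⟩
            (H.lt (hnn _) hx) hy
        rw [← h2, ← h3] at h4
        unfold fc at h4
        exact (add_right_cancel h4).symm
      · rintro ⟨x, y⟩ ⟨hx, hy⟩
        refine mul_ne_zero ?_ (hz.ne_zero H (hnn _) ht hx hy)
        unfold ex
        exact Complex.exp_ne_zero _
      · refine ⟨?_, mem_ball_self hr⟩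
        change s < s + σ₁ + 1
        linarith
      · have h5 : s < s + σ₁ + 1 := by linarith
        have h6 : green d c₀ 0 < s + σ₁ + 1 := by
          have := hσ1 c₀ (mem_ball_self hr)
          have := hnn (K σ)
          linarith
        change zk (K σ) (t + j / d) (s + σ₁ + 1) c₀ = ex 0 (j / d) * zk (K σ) t (s + σ₁ + 1) c₀
        rw [hz.high _ ht' _ h5 c₀ (mem_ball_self hr) h6, hz.high t ht _ h5 c₀ (mem_ball_self hr) h6,
          ex_mul, hB.rot c₀ _ hω _ (mem_Dom h6)]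
    exact hroot (σ, c) ⟨hK σ hσ, hc⟩

end Pool.Agent.Y153.LC
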